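import Mathlib
import Pool.Agent.T2H12.KH.SA2
import Pool.Agent.T2H12.KH.SumB

/-!
# A general decomposition `x = γ x * G x`
-/

set_option autoImplicit false

namespace Pool.Agent.T2H12.KM

open Finset
open scoped Classical
open Pool.Agent.Y359.PE Pool.Agent.T2H12.KF Pool.Agent.T2H12.KD Pool.Agent.T2H12.KG
open Pool.Agent.T2H12.KH

/-- `x = γ x * G x`, where `G x` is not divisible by the primes of `P` -/
structure Dec (P : Finset ℕ) (γ G : ℤ → ℤ) (A : Finset ℤ) : Prop where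
  prime : ∀ p ∈ P, p.Prime
  eq : ∀ x ∈ A, x = γ x * G x
  cop : ∀ p ∈ P, ∀ x ∈ A, fa (G x) p = 0

lemma Dec.mono {P P' : Finset ℕ} {γ G : ℤ → ℤ} {A A' : Finset ℤ} (h : Dec P γ G A)
    (hP : P' ⊆ P) (hA : A' ⊆ A) : Dec P' γ G A' :=
  ⟨fun p hp => h.prime p (hP hp), fun x hx => h.eq x (hA hx),
    fun p hp x hx => h.cop p (hP hp) x (hA hx)⟩

lemma Dec.ne {P : Finset ℕ} {γ G : ℤ → ℤ} {A : Finset ℤ} (h : Dec P γ G A) (h0 : (0 : ℤ) ∉ A)
    {x : ℤ} (hx : x ∈ A) : γ x ≠ 0 ∧ G x ≠ 0 := by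
  have h1 : x ≠ 0 := fun h => h0 (h ▸ hx)
  rw [h.eq x hx] at h1
  exact ⟨left_ne_zero_of_mul h1, right_ne_zero_of_mul h1⟩

lemma Dec.fa_eq {P : Finset ℕ} {γ G : ℤ → ℤ} {A : Finset ℤ} (h : Dec P γ G A) (h0 : (0 : ℤ) ∉ A)
    {p : ℕ} (hp : p ∈ P) {x : ℤ} (hx : x ∈ A) : fa (γ x) p = fa x p := by
  obtain ⟨h1, h2⟩ := h.ne h0 hx
  conv_rhs => rw [h.eq x hx]
  rw [fa_mul h1 h2, h.cop p hp x hx, add_zero]

lemma Dec.hg {P : Finset ℕ} {γ G : ℤ → ℤ} {A : Finset ℤ} (h : Dec P γ G A) (h0 : (0 : ℤ) ∉ A)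
    {p : ℕ} (hp : p ∈ P) : HG γ G p A := by
  refine ⟨fun x hx y hy hxy => ?_, fun x hx y hy hxy l => ?_⟩
  · rw [← h.fa_eq h0 hp hx, ← h.fa_eq h0 hp hy, hxy]
  · have h1 : x - y = γ x * (G x - G y) := by
      conv_lhs => rw [h.eq x hx, h.eq y hy, ← hxy]
      ring
    rw [h1, pow_dvd_mul_iff (h.prime p hp) (h.ne h0 hx).1, h.fa_eq h0 hp hx]

/-- the part prime to the large primes -/
def gl (K : ℕ) (P : Finset ℕ) (G : ℤ → ℤ) (x : ℤ) : ℤ := G x * gp (P.filter fun q => q < K) x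

lemma gl_hg {K : ℕ} {P : Finset ℕ} {γ G : ℤ → ℤ} {A : Finset ℤ} (h : Dec P γ G A)
    (h0 : (0 : ℤ) ∉ A) {p : ℕ} (hp : p ∈ P) (hK : K ≤ p) : HG γ (gl K P G) p A := by
  refine ⟨(h.hg h0 hp).1, fun x hx y hy hxy l => ?_⟩
  rw [(h.hg h0 hp).2 x hx y hy hxy l]
  set Ps := P.filter fun q => q < K with hPs
  have hPsp : ∀ q ∈ Ps, q.Prime := fun q hq => h.prime q (mem_filter.1 hq).1
  have h1 : gp Ps x = gp Ps y := (gp_eq_iff hPsp).2 fun q hq =>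
    (h.hg h0 (mem_filter.1 hq).1).1 x hx y hy hxy
  have h2 : gl K P G x - gl K P G y = gp Ps x * (G x - G y) := by
    unfold gl
    rw [← hPs, ← h1]
    ring
  have h3 : fa (gp Ps x) p = 0 := by
    rw [fa_gp hPsp, if_neg]
    intro h4
    have := (mem_filter.1 h4).2
    omega
  rw [h2, pow_dvd_mul_iff (h.prime p hp) (gp_pos hPsp x).ne', h3, Nat.sub_zero]

lemma gl_inj {K : ℕ} {P : Finset ℕ} {γ G : ℤ → ℤ} {A : Finset ℤ} (h : Dec P γ G A)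
    (h0 : (0 : ℤ) ∉ A) {x y : ℤ} (hx : x ∈ A) (hy : y ∈ A) (hxy : γ x = γ y)
    (hg : gl K P G x = gl K P G y) : x = y := by
  set Ps := P.filter fun q => q < K with hPs
  have hPsp : ∀ q ∈ Ps, q.Prime := fun q hq => h.prime q (mem_filter.1 hq).1
  have h1 : gp Ps x = gp Ps y := (gp_eq_iff hPsp).2 fun q hq =>
    (h.hg h0 (mem_filter.1 hq).1).1 x hx y hy hxy
  unfold gl at hg
  rw [← hPs, ← h1] at hg
  rw [h.eq x hx, h.eq y hy, hxy, mul_right_cancel₀ (gp_pos hPsp x).ne' hg]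

lemma gl_low {K : ℕ} {P : Finset ℕ} {γ G : ℤ → ℤ} {A : Finset ℤ} (h : Dec P γ G A)
    (h0 : (0 : ℤ) ∉ A) {x y : ℤ} (hx : x ∈ A) (hy : y ∈ A)
    (hg : gl K P G x = gl K P G y) {p : ℕ} (hp : p ∈ P) (hK : p < K) : fa x p = fa y p := by
  set Ps := P.filter fun q => q < K with hPs
  have hPsp : ∀ q ∈ Ps, q.Prime := fun q hq => h.prime q (mem_filter.1 hq).1
  have h1 : ∀ z ∈ A, fa (gl K P G z) p = fa z p := by
    intro z hz
    unfold gl
    rw [← hPs, fa_mul (h.ne h0 hz).2 (gp_pos hPsp z).ne', h.cop p hp z hz, fa_gp hPsp,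
      if_pos (mem_filter.2 ⟨hp, hK⟩), zero_add]
  rw [← h1 x hx, ← h1 y hy, hg]

/-- the entropy of the part prime to the large primes -/
lemma gl_entropy {K : ℕ} {P : Finset ℕ} {γ G : ℤ → ℤ} {A : Finset ℤ} (h : Dec P γ G A)
    (h0 : (0 : ℤ) ∉ A) : Pool.Agent.Y359.PE.h A (gl K P G) =
      Pool.Agent.Y359.PE.h A G + ce A G (gp (P.filter fun q => q < K)) := by
  set Ps := P.filter fun q => q < K with hPs
  have hPsp : ∀ q ∈ Ps, q.Prime := fun q hq => h.prime q (mem_filter.1 hq).1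
  unfold ce
  have h1 : Pool.Agent.Y359.PE.h A (gl K P G) =
      Pool.Agent.Y359.PE.h A (fun x => (G x, gp Ps x)) := by
    refine h_congr fun x hx y hy => ?_
    rw [Prod.mk.injEq]
    constructor
    · intro hg
      have h2 : gp Ps x = gp Ps y := (gp_eq_iff hPsp).2 fun q hq =>
        gl_low h h0 hx hy hg (mem_filter.1 hq).1 (mem_filter.1 hq).2
      refine ⟨?_, h2⟩
      unfold gl at hg
      rw [← hPs, ← h2] at hg
      exact mul_right_cancel₀ (gp_pos hPsp x).ne' hg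
    · rintro ⟨h2, h3⟩
      unfold gl
      rw [← hPs, h2, h3]
  rw [h1]
  ring

end Pool.Agent.T2H12.KM
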