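import Mathlib
import Pool.Agent.T2H12.KM.Defs4

/-!
# Flat sets: the first lemmas
-/

set_option autoImplicit false

namespace Pool.Agent.T2H12.KM

open Finset
open scoped Classical
open Pool.Agent.Y359.PE Pool.Agent.T2H12.KF Pool.Agent.T2H12.KD Pool.Agent.T2H12.KG
open Pool.Agent.T2H12.KH

/-- residues -/
lemma hg_res {γ G : ℤ → ℤ} {p : ℕ} {U : Finset ℤ} (h : HG γ G p U) {x y : ℤ} (hx : x ∈ U)
    (hy : y ∈ U) (hxy : γ x = γ y) (l : ℕ) :
    rp p l x = rp p l y ↔ rp p (l - fa x p) (G x) = rp p (l - fa x p) (G y) := by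
  rw [rp_eq_iff, rp_eq_iff]
  exact h.2 x hx y hy hxy l

/-- **The flats for a fixed second summand.** -/
theorem flat_app4 {δ lam : ℝ} (π : Par) (D : Finset ℤ) (hF : FlatP δ lam π.al)
    (hal : π.al ≤ 1) (hu : 0 ≤ π.u) (hlam : Real.exp π.u * lam = 1)
    {ρ : ℝ} (hρ : 0 < ρ) (hρ2 : ρ ≤ 1 / 2) (gam gl : ℤ → ℤ) (P : ℕ → ℕ) (J : ℕ)
    (hPp : ∀ j < J, (P j).Prime) (U V : Finset ℤ) (hP : ∀ j < J, HG gam gl (P j) U)
    (h0 : (0 : ℤ) ∉ U)
    (st : ℕ → ℤ × ℤ → St) (hst0 : ∀ s, st 0 s = (cl U gam s.1, V, 0))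
    (hR : ∀ j ≤ J, Rect U V (st j))
    (hO : ∀ j < J, ∀ s ∈ U ×ˢ V, OneP π D (P j) (st j s).1 (st j s).2.1 (st (j + 1)))
    (b : ℤ) (hb : b ∈ V) :
    ((U.filter fun x => Real.exp π.t < ((st J (x, b)).2.1.card : ℝ)).card : ℝ) *
      ce (U.filter fun x => Real.exp π.t < ((st J (x, b)).2.1.card : ℝ)) gl
        (fun x => fun j : Fin J => fa x (P j)) ≤
      δ * (U.card * Real.log U.card + J * U.card) + 2 * ρ * J * U.card +
          Real.log (1 / ρ) * ∑ x ∈ U, ∑ j ∈ range J, ((st (j + 1) (x, b)).2.2 : ℝ) := by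
  have hne : ∀ x ∈ U, x ≠ 0 := fun x hx h => h0 (h ▸ hx)
  have hX : ∀ x ∈ U, (x, b) ∈ U ×ˢ V := fun x hx => mem_product.2 ⟨hx, hb⟩
  -- the rectangles
  have hself : ∀ j ≤ J, ∀ x ∈ U, x ∈ (st j (x, b)).1 ∧ b ∈ (st j (x, b)).2.1 := by
    intro j hj x hx
    exact mem_product.1 ((hR j hj).mem (x, b) (hX x hx)).1
  have hsubU : ∀ j ≤ J, ∀ x ∈ U, (st j (x, b)).1 ⊆ U := fun j hj x hx =>
    ((hR j hj).mem (x, b) (hX x hx)).2.1
  have hcon : ∀ j ≤ J, ∀ x ∈ U, ∀ y ∈ (st j (x, b)).1, st j (y, b) = st j (x, b) := by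
    intro j hj x hx y hy
    exact (hR j hj).const (x, b) (hX x hx) (y, b) (mem_product.2 ⟨hy, (hself j hj x hx).2⟩)
  have hstep : ∀ j < J, ∀ x ∈ U, (st (j + 1) (x, b)).1 ⊆ (st j (x, b)).1 ∧
      (st (j + 1) (x, b)).2.1 ⊆ (st j (x, b)).2.1 := by
    intro j hj x hx
    exact ((hO j hj (x, b) (hX x hx)).mem (x, b)
      (mem_product.2 (hself j hj.le x hx))).2
  have hnest : ∀ i j, i ≤ j → j ≤ J → ∀ x ∈ U, (st j (x, b)).1 ⊆ (st i (x, b)).1 := by
    intro i j hij
    induction j, hij using Nat.le_induction with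
    | base => intro _ x _; exact Subset.refl _
    | succ j hij ih =>
      intro hj x hx
      exact (hstep j (by omega) x hx).1.trans (ih (by omega) x hx)
  have hall : ∀ i j, i ≤ j → j ≤ J → ∀ x ∈ U, ∀ y ∈ (st j (x, b)).1,
      st i (y, b) = st i (x, b) := fun i j hij hj x hx y hy =>
    hcon i (hij.trans hj) x hx y (hnest i j hij hj x hx hy)
  have hgp : ∀ j ≤ J, ∀ x ∈ U, ∀ y ∈ (st j (x, b)).1, gam y = gam x := by
    intro j hj x hx y hy
    have h1 := hnest 0 j (Nat.zero_le _) hj x hx hy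
    rw [hst0] at h1
    exact (mem_cl.1 h1).2
  have hfa : ∀ j ≤ J, ∀ x ∈ U, ∀ y ∈ (st j (x, b)).1, ∀ i < J, fa y (P i) = fa x (P i) :=
    fun j hj x hx y hy i hi => (hP i hi).1 y (hsubU j hj x hx hy) x hx (hgp j hj x hx y hy)
  set O : ℕ → Finset ℤ := fun j => U.filter fun x => Real.exp π.t < ((st j (x, b)).2.1.card : ℝ)
    with hOd
  have hmemO : ∀ j x, x ∈ O j ↔ x ∈ U ∧ Real.exp π.t < ((st j (x, b)).2.1.card : ℝ) :=
    fun j x => mem_filter
  refine hF ρ hρ hρ2 U J O (fun j x => (st (j + 1) (x, b)).1)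
    (fun j x => (st (j + 1) (x, b)).2.2) (fun j x => fa x (P j))
    (fun j x => π.lv (P j) (st (j + 1) (x, b)).2.1) gl (fun j e x => rp (P j) e (gl x))
    (filter_subset _ _) ?_ ?_ ?_ ?_ ?_ ?_ ?_ ?_ ?_
  · intro j hj x hx
    rw [hmemO] at hx ⊢
    refine ⟨hx.1, lt_of_lt_of_le hx.2 ?_⟩
    exact_mod_cast card_le_card (hstep j hj x hx.1).2
  · intro j e x y hxy
    simp only [hxy]
  · intro j e e' x y hee hxy
    exact rp_mono hee hxy
  · intro j hj x hx
    have hxU := ((hmemO _ _).1 hx).1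
    refine ⟨(hself (j + 1) hj x hxU).1, ?_⟩
    intro y hy
    have hy' : y ∈ (st (j + 1) (x, b)).1 := hy
    rw [hmemO, hcon (j + 1) hj x hxU y hy']
    exact ⟨hsubU (j + 1) hj x hxU hy', ((hmemO _ _).1 hx).2⟩
  · intro j hj x hx y hy
    have hxU := ((hmemO _ _).1 hx).1
    have hy' : y ∈ (st (j + 1) (x, b)).1 := hy
    simp only [hcon (j + 1) hj x hxU y hy']
  · intro j hj x hx y hy i hi
    have hxU := ((hmemO _ _).1 hx).1
    have hy' : y ∈ (st (j + 1) (x, b)).1 := hy
    have h1 := hall (i + 1) (j + 1) (by omega) hj x hxU y hy'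
    have h2 := hfa (j + 1) hj x hxU y hy' i (by omega)
    refine ⟨?_, h2, ?_, ?_⟩
    · simp only [h1]
    · simp only [h1]
    · have hyi : y ∈ (st (i + 1) (x, b)).1 :=
        hnest (i + 1) (j + 1) (by omega) hj x hxU hy'
      have h3 := (hO i (by omega) (x, b) (hX x hxU)).res (x, b)
        (mem_product.2 (hself i (by omega) x hxU)) y hyi x
        (hself (i + 1) (by omega) x hxU).1
      have h4 := (hg_res (hP i (by omega)) (hsubU (j + 1) hj x hxU hy')
        hxU (hgp (j + 1) hj x hxU y hy') _).1 h3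
      rw [h2] at h4
      exact h4
  · intro j hj x hx y hy hn
    have hxU := ((hmemO _ _).1 hx).1
    have hyU := ((hmemO _ _).1 hy).1
    have h1 : ∀ i, i ≤ j + 1 → (st i (x, b)).2.1 = (st i (y, b)).2.1 := by
      intro i
      induction i with
      | zero =>
        intro _
        rw [hst0, hst0]
      | succ i ih =>
        intro hi
        have h2 := (hO i (by omega) (x, b) (hX x hxU)).chain (x, b)
          (mem_product.2 (hself i (by omega) x hxU))
        have h3 := (hO i (by omega) (y, b) (hX y hyU)).chain (y, b)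
          (mem_product.2 (hself i (by omega) y hyU))
        have h4 : (st (i + 1) (x, b)).2.2 = (st (i + 1) (y, b)).2.2 := hn i (by omega)
        rw [h2, h3, h4, ih (by omega)]
    simp only [h1 (j + 1) le_rfl]
  · intro j hj x hx
    have hx' := (hmemO _ _).1 hx
    have hxU := hx'.1
    by_contra hcon2
    rw [not_le] at hcon2
    have hstop := (hO j hj (x, b) (hX x hxU)).stop (x, b)
      (mem_product.2 (hself j hj.le x hxU))
    rcases hstop with h1 | h1
    · linarith [hx'.2]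
    · set S := (st (j + 1) (x, b)).1 with hS
      set ℓ := π.lv (P j) (st (j + 1) (x, b)).2.1 with hℓ
      have hxS : x ∈ S := (hself (j + 1) hj x hxU).1
      have h2 : ∀ y ∈ S, Hvy π.u S (P j) (ℓ + 1) y := by
        intro y hy
        unfold Hvy
        have h3 : fc S (rp (P j) (ℓ + 1)) y = S.card := by
          unfold fc
          congr 1
          ext w
          rw [mem_cl]
          refine ⟨fun h => h.1, fun hw => ⟨hw, ?_⟩⟩
          rw [rp_eq_iff]
          have d1 : ∀ w ∈ S, ((P j : ℕ) : ℤ) ^ (ℓ + 1) ∣ w := by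
            intro w hw
            have hwU := hsubU (j + 1) hj x hxU hw
            refine (pow_dvd_iff_fa (hPp j hj) (hne w hwU) (ℓ + 1)).2 ?_
            rw [hfa (j + 1) hj x hxU w hw j hj]
            exact hcon2
          exact dvd_sub (d1 w hw) (d1 y hy)
        rw [h3]
        have h4 : 1 ≤ Real.exp π.u := Real.one_le_exp hu
        have h5 : (0 : ℝ) ≤ S.card := Nat.cast_nonneg _
        nlinarith
      rw [filter_true_of_mem h2] at h1
      have h3 : (0 : ℝ) < S.card := by exact_mod_cast card_pos.2 ⟨x, hxS⟩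
      nlinarith
  · intro j hj x hx
    have hx' := (hmemO _ _).1 hx
    have hxU := hx'.1
    have hstop := (hO j hj (x, b) (hX x hxU)).stop (x, b)
      (mem_product.2 (hself j hj.le x hxU))
    rcases hstop with h1 | h1
    · linarith [hx'.2]
    · refine le_trans ?_ h1.le
      have hsub : ((st (j + 1) (x, b)).1.filter fun y =>
          lam * (st (j + 1) (x, b)).1.card ≤ fc (st (j + 1) (x, b)).1
            (fun x_1 => rp (P j) (π.lv (P j) (st (j + 1) (x, b)).2.1 + 1 - fa x (P j))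
              (gl x_1)) y) ⊆
          (st (j + 1) (x, b)).1.filter fun y => Hvy π.u (st (j + 1) (x, b)).1 (P j)
            (π.lv (P j) (st (j + 1) (x, b)).2.1 + 1) y := by
        intro y hy
        obtain ⟨hy1, hy2⟩ := mem_filter.1 hy
        refine mem_filter.2 ⟨hy1, ?_⟩
        unfold Hvy
        have h3 : fc (st (j + 1) (x, b)).1 (fun x_1 => rp (P j)
            (π.lv (P j) (st (j + 1) (x, b)).2.1 + 1 - fa x (P j)) (gl x_1)) y =
            fc (st (j + 1) (x, b)).1 (rp (P j) (π.lv (P j) (st (j + 1) (x, b)).2.1 + 1)) y := by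
          unfold fc
          congr 1
          refine cl_eq_of_iff (fun w hw y' hy' => ?_) hy1
          have hwU := hsubU (j + 1) hj x hxU hw
          have hyU := hsubU (j + 1) hj x hxU hy'
          have e1 : gam w = gam y' := by
            rw [hgp (j + 1) hj x hxU w hw, hgp (j + 1) hj x hxU y' hy']
          rw [hg_res (hP j hj) hwU hyU e1, hfa (j + 1) hj x hxU w hw j hj]
        rw [h3] at hy2
        have h4 := mul_le_mul_of_nonneg_left hy2 (Real.exp_pos π.u).le
        rw [← mul_assoc, hlam, one_mul] at h4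
        exact h4
      exact_mod_cast card_le_card hsub

end Pool.Agent.T2H12.KM
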