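import Mathlib
import Pool.Agent.T2H12.KM.SB4a
import Pool.Agent.T2H12.KJ.Fin3

/-!
# General decomposition: the exceptional pairs are rare
-/

set_option autoImplicit false

namespace Pool.Agent.T2H12.KM

open Finset
open scoped Classical
open Pool.Agent.Y359.PE Pool.Agent.T2H12.KF Pool.Agent.T2H12.KD Pool.Agent.T2H12.KG
open Pool.Agent.T2H12.KH Pool.Agent.T2H12.KI Pool.Agent.T2H12.KJ

/-- the exponents of the large primes from below -/
lemma id_low4 (K : ℕ) (R : Finset ℕ) (hR : ∀ q ∈ R, q.Prime) (gam gl : ℤ → ℤ)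
    (O : Finset ℤ) (hinj : ∀ x ∈ O, ∀ y ∈ O, gam x = gam y → gl x = gl y → x = y)
    (hlow : ∀ x ∈ O, ∀ y ∈ O, gl x = gl y → ∀ p ∈ R, p < K → fa x p = fa y p) (J : ℕ) (P : ℕ → ℕ)
    (hP : ∀ q ∈ R, K ≤ q → ∃ j < J, P j = q) :
    Real.log O.card - h O gl ≤
      ce O gl (fun x => fun j : Fin J => fa x (P j)) + ce O (gp R) gam := by
  set v : ℤ → Fin J → ℕ := fun x => fun j : Fin J => fa x (P j) with hv
  have h1 : ce O gl (fun x => (v x, gam x)) = Real.log O.card - h O gl := by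
    unfold ce
    rw [h_inj O _ (by
      intro x hx y hy hxy
      obtain ⟨h3, h4⟩ := Prod.mk.inj hxy
      obtain ⟨_, h5⟩ := Prod.mk.inj h4
      exact hinj x hx y hy h5 h3)]
  rw [← h1, ce_chain]
  refine add_le_add le_rfl ?_
  refine ce_anti _ _ _ _ fun x hx y hy hxy => ?_
  obtain ⟨h3, h4⟩ := Prod.mk.inj hxy
  rw [gp_eq_iff hR]
  intro p hp
  by_cases hpK : K ≤ p
  · obtain ⟨j, hj, rfl⟩ := hP p hp hpK
    exact congrFun h4 ⟨j, hj⟩
  · exact hlow x hx y hy h3 p hp (by omega)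

/-- the lower bound for the entropy of the exponents -/
lemma fib_low4 (K : ℕ) (R : Finset ℕ) (hR : ∀ q ∈ R, q.Prime) (gam gl : ℤ → ℤ)
    (A O : Finset ℤ) (hinj : ∀ x ∈ A, ∀ y ∈ A, gam x = gam y → gl x = gl y → x = y)
    (hlow : ∀ x ∈ A, ∀ y ∈ A, gl x = gl y → ∀ p ∈ R, p < K → fa x p = fa y p)
    (hOA : O ⊆ A) (hO : O.Nonempty) {τ : ℝ}
    (hf : ∀ x ∈ O, Real.exp τ ≤ fc A gl x) (J : ℕ) (P : ℕ → ℕ)
    (hP : ∀ q ∈ R, K ≤ q → ∃ j < J, P j = q) :
    Real.log O.card - (Real.log A.card - τ) - ce O (gp R) gam ≤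
      ce O gl (fun x => fun j : Fin J => fa x (P j)) := by
  have h1 := id_low4 K R hR gam gl O (fun x hx y hy => hinj x (hOA hx) y (hOA hy))
    (fun x hx y hy => hlow x (hOA hx) y (hOA hy)) J P hP
  have h2 := h_le_log hO gl
  have h3 := image_card_le A O gl hf
  have hI : (0 : ℝ) < (O.image gl).card := by exact_mod_cast card_pos.2 (hO.image _)
  have hinst : ∀ i₁ i₂ : DecidableEq ℤ, @Finset.image ℤ ℤ i₁ gl O =
      @Finset.image ℤ ℤ i₂ gl O := fun i₁ i₂ => by rw [Subsingleton.elim i₁ i₂]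
  rw [hinst _ Int.instDecidableEq] at h2 h3
  have h4 := Real.log_le_log (mul_pos hI (Real.exp_pos _)) h3
  rw [Real.log_mul hI.ne' (Real.exp_pos _).ne', Real.log_exp] at h4
  linarith

/-- the first step: the exponents of all the primes with a random multiplier -/
lemma step04 {η c : ℝ} (hη : 0 < η) (hη1 : η ≤ 1) (hc : 0 < c) : ∃ K₀ : ℝ, 0 < K₀ ∧
    ∀ K : ℕ, K₀ ≤ K → ∃ B : ℝ, 0 ≤ B ∧ ∀ (P : Finset ℕ) (gam : ℤ → ℤ) (U V : Finset ℤ),
      (∀ q ∈ P, q.Prime) → (0 : ℤ) ∉ U → U.Nonempty → V.Nonempty →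
      ∑ m ∈ qK K, ce (U ×ˢ V) (fun s => m * s.1 + s.2) (fun s => gam s.1) ≤
        K * (5 * η * (Real.log U.card + Real.log V.card) + c * P.card + B +
          ce U (gp P) gam) := by
  obtain ⟨C, hC, hB⟩ := exists_bitG hη hη1
  obtain ⟨K₀, hK₀, hlarge⟩ := levB_large hη hη1 hC hB hc
  refine ⟨max K₀ (1 / η), lt_max_of_lt_left hK₀, ?_⟩
  intro K hK
  have hK1 : K₀ ≤ K := (le_max_left _ _).trans hK
  have hK2 : 1 / η ≤ K := (le_max_right _ _).trans hK
  have hKp : (0 : ℝ) < K := hK₀.trans_le hK1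
  set L₀ : ℝ := 2 * Real.log 2 + 1 + Real.log (C / η) with hL₀
  have hl2 : 0 < Real.log 2 := Real.log_pos (by norm_num)
  have hL₀0 : 0 ≤ L₀ := by
    have : 0 ≤ Real.log (C / η) := Real.log_nonneg (by
      rw [le_div_iff₀ hη]
      linarith)
    positivity
  refine ⟨K * L₀, by positivity, ?_⟩
  intro P gam U V hPp h0 hU hV
  have h1 := spine_list_m hη (qK K) (fun p => if p < K then L₀ else c) P.toList U V (by
    intro p hp
    have hpp := hPp p (Finset.mem_toList.1 hp)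
    refine ⟨hpp, ?_, ?_⟩
    · split_ifs
      · exact hL₀0
      · exact hc.le
    · split_ifs with h
      · exact levB_small hη hη1 hC hB hpp h
      · exact hlarge K p hK1 hpp (not_lt.1 h)) h0 hU hV
  rw [card_qK] at h1
  have h2 := cs_le (K := K) hL₀0 hc.le P.toList P.nodup_toList
  rw [Finset.length_toList] at h2
  have h3 : ∀ m ∈ qK K, ce (U ×ˢ V) (fun s => m * s.1 + s.2) (fun s => gam s.1) ≤
      hzm m U V (fL P.toList) + ce U (gp P) gam := by
    intro m _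
    have e1 : ce (U ×ˢ V) (fun s => m * s.1 + s.2) (fun s => gam s.1) ≤
        ce (U ×ˢ V) (fun s => m * s.1 + s.2) (fun s => (fL P.toList s.1, gam s.1)) :=
      ce_mono _ _ _ _ fun x _ y _ _ hxy => (Prod.mk.inj hxy).2
    rw [ce_chain] at e1
    refine e1.trans (add_le_add le_rfl ?_)
    have e2 : ce (U ×ˢ V) (fun s => (m * s.1 + s.2, fL P.toList s.1)) (fun s => gam s.1) ≤
        ce (U ×ˢ V) (fun s => gp P s.1) (fun s => gam s.1) := by
      refine ce_anti _ _ _ _ fun x _ y _ hxy => ?_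
      have hxy' : fL P.toList x.1 = fL P.toList y.1 := (Prod.mk.inj hxy).2
      rw [fL_eq_iff] at hxy'
      exact (gp_eq_iff hPp).2 fun p hp => hxy' p (Finset.mem_toList.2 hp)
    refine e2.trans (le_of_eq ?_)
    unfold ce
    rw [h_fst U V hU hV (gp P)]
    have e3 := h_fst U V hU hV (fun x => (gp P x, gam x))
    rw [e3]
  have h4 := sum_le_sum h3
  rw [sum_add_distrib, sum_const, card_qK, nsmul_eq_mul] at h4
  refine h4.trans ?_
  have h5 := h_le_log_card U (fL P.toList)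
  have h6 := log_card_nonneg V
  have h7 := h_nonneg U (fL P.toList)
  have h8 : 1 ≤ K * η := by
    rw [div_le_iff₀ hη] at hK2
    exact hK2
  have h9 : h U (fL P.toList) ≤ K * (η * Real.log U.card) := by
    have h9 : (1 : ℝ) * h U (fL P.toList) ≤ K * η * Real.log U.card :=
      mul_le_mul h8 h5 h7 (by positivity)
    linarith
  have h10 : (K : ℝ) * (4 * η * (h U (fL P.toList) + Real.log V.card)) ≤
      K * (4 * η * (Real.log U.card + Real.log V.card)) :=
    mul_le_mul_of_nonneg_left (mul_le_mul_of_nonneg_left (by linarith) (by positivity)) hKp.le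
  have h11 : 0 ≤ (K : ℝ) * (η * Real.log V.card) := by positivity
  have h12 := mul_le_mul_of_nonneg_left h2 hKp.le
  linarith

/-- **The exceptional pairs are rare.** -/
theorem O_small4 {η κ δ lam a Y E : ℝ} (π : Par) (D : Finset ℤ) (hF : FlatP δ lam π.al)
    (hal : π.al ≤ 1) (hu : 0 ≤ π.u) (hlam : Real.exp π.u * lam = 1)
    {ρ : ℝ} (hρ : 0 < ρ) (hρ2 : ρ ≤ 1 / 2) (R : Finset ℕ) (K : ℕ) (hRp : ∀ q ∈ R, q.Prime)
    (gam gl : ℤ → ℤ) (P : ℕ → ℕ) (J : ℕ) (hPp : ∀ j < J, (P j).Prime) (A U V : Finset ℤ)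
    (hP : ∀ j < J, HG gam gl (P j) U)
    (hinj : ∀ x ∈ A, ∀ y ∈ A, gam x = gam y → gl x = gl y → x = y)
    (hlow : ∀ x ∈ A, ∀ y ∈ A, gl x = gl y → ∀ p ∈ R, p < K → fa x p = fa y p)
    (hPQ : ∀ q ∈ R, K ≤ q → ∃ j < J, P j = q) (hE : ∀ O ⊆ A, ce O (gp R) gam ≤ E) (hUA : U ⊆ A) (h0 : (0 : ℤ) ∉ A) (hU : U.Nonempty) (hV : V.Nonempty)
    (st : ℕ → ℤ × ℤ → St) (hst0 : ∀ s, st 0 s = (cl U gam s.1, V, 0))
    (hR : ∀ j ≤ J, Rect U V (st j))
    (hO : ∀ j < J, ∀ s ∈ U ×ˢ V, OneP π D (P j) (st j s).1 (st j s).2.1 (st (j + 1)))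
    (hη : 0 < η) (hκ : 0 < κ) (hδ : 0 ≤ δ) (ha : a = Real.log A.card)
    (hUc : κ / 2 * A.card ≤ U.card) (hfib : ∀ x ∈ U, Real.exp (κ / 2 * a) ≤ fc A gl x)
    (hY : 0 < Y)
    (hcount : ∑ j ∈ range J, ∑ s ∈ U ×ˢ V, ((st (j + 1) s).2.2 : ℝ) ≤ (U ×ˢ V).card * Y)
    (hR0 : 0 ≤ κ / 2 * a + Real.log (η * κ / 4) - E)
    (hnum : δ * (a + J) + 2 * ρ * J + Real.log (1 / ρ) * (2 / η * Y) <
      η / 2 * (κ / 2 * a + Real.log (η * κ / 4) - E)) :
    (((U ×ˢ V).filter fun s => Real.exp π.t < ((st J s).2.1.card : ℝ)).card : ℝ) ≤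
      η * (U ×ˢ V).card := by
  by_contra hcon
  rw [not_le] at hcon
  have hUc0 : (0 : ℝ) < U.card := by exact_mod_cast card_pos.2 hU
  have hVc0 : (0 : ℝ) < V.card := by exact_mod_cast card_pos.2 hV
  have hAc0 : (0 : ℝ) < A.card := by exact_mod_cast card_pos.2 (hU.mono hUA)
  have hlρ : 0 ≤ Real.log (1 / ρ) := Real.log_nonneg (by
    rw [le_div_iff₀ hρ]
    linarith)
  set O : ℤ → Finset ℤ := fun b => U.filter fun x => Real.exp π.t < ((st J (x, b)).2.1.card : ℝ)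
    with hOd
  set g : ℤ → ℝ := fun b => ∑ x ∈ U, ∑ j ∈ range J, ((st (j + 1) (x, b)).2.2 : ℝ) with hg
  have hg0 : ∀ b, 0 ≤ g b := fun b => sum_nonneg fun _ _ => sum_nonneg fun _ _ => Nat.cast_nonneg _
  have hXc : ((U ×ˢ V).card : ℝ) = U.card * V.card := by
    rw [card_product]
    push_cast
    rfl
  have e1 : (((U ×ˢ V).filter fun s => Real.exp π.t < ((st J s).2.1.card : ℝ)).card : ℝ) =
      ∑ b ∈ V, ((O b).card : ℝ) := by
    rw [card_filter]
    push_cast
    rw [sum_product_right]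
    refine sum_congr rfl fun b _ => ?_
    rw [hOd]
    simp only [card_filter]
    push_cast
    rfl
  have e2 : ∑ j ∈ range J, ∑ s ∈ U ×ˢ V, ((st (j + 1) s).2.2 : ℝ) = ∑ b ∈ V, g b := by
    rw [sum_comm, sum_product_right]
  rw [e1, hXc] at hcon
  rw [e2, hXc] at hcount
  obtain ⟨b, hb, hlt⟩ : ∃ b ∈ V, η / 2 * (U.card : ℝ) < (O b).card - η / 2 * (g b / Y) := by
    refine exists_lt_of_sum_lt ?_
    rw [sum_const, nsmul_eq_mul, sum_sub_distrib, ← mul_sum, ← sum_div]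
    have h1 : (∑ b ∈ V, g b) / Y ≤ U.card * V.card := by
      rw [div_le_iff₀ hY]
      exact hcount
    have h2 := mul_le_mul_of_nonneg_left h1 (by positivity : 0 ≤ η / 2)
    linarith
  have hf1 : η / 2 * (U.card : ℝ) < (O b).card := by
    have : 0 ≤ η / 2 * (g b / Y) := by
      have := hg0 b
      positivity
    linarith
  have hOc0 : (0 : ℝ) < (O b).card := lt_of_le_of_lt (by positivity) hf1
  have hOn : (O b).Nonempty := card_pos.1 (by exact_mod_cast hOc0)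
  have hOU : O b ⊆ U := filter_subset _ _
  have hg1 : g b ≤ 2 / η * Y * U.card := by
    have h1 : ((O b).card : ℝ) ≤ U.card := by exact_mod_cast card_le_card hOU
    have h2 : η / 2 * (g b / Y) ≤ U.card := by
      have : 0 ≤ η / 2 * (U.card : ℝ) := by positivity
      linarith
    have h3 : g b = 2 / η * Y * (η / 2 * (g b / Y)) := by
      field_simp
    rw [h3]
    exact mul_le_mul_of_nonneg_left h2 (by positivity)
  have hfl := flat_app4 π D hF hal hu hlam hρ hρ2 gam gl P J hPp U V hP (fun h => h0 (hUA h))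
    st hst0 hR hO b hb
  change ((O b).card : ℝ) * ce (O b) gl (fun x => fun j : Fin J => fa x (P j)) ≤
    δ * (U.card * Real.log U.card + J * U.card) + 2 * ρ * J * U.card +
      Real.log (1 / ρ) * g b at hfl
  have hlow := fib_low4 K R hRp gam gl A (O b) hinj hlow (hOU.trans hUA) hOn (τ := κ / 2 * a)
    (fun x hx => hfib x (hOU hx)) J P hPQ
  have hEO := hE (O b) (hOU.trans hUA)
  have hlogO : Real.log (η * κ / 4) + a ≤ Real.log (O b).card := by
    rw [ha, ← Real.log_mul (by positivity) hAc0.ne']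
    refine Real.log_le_log (by positivity) ?_
    have h1 := mul_le_mul_of_nonneg_left hUc (by positivity : 0 ≤ η / 2)
    have h2 : η * κ / 4 * (A.card : ℝ) = η / 2 * (κ / 2 * A.card) := by ring
    rw [h2]
    linarith
  rw [← ha] at hlow
  have hce : κ / 2 * a + Real.log (η * κ / 4) - E ≤
      ce (O b) gl (fun x => fun j : Fin J => fa x (P j)) := by linarith
  have h1 : η / 2 * U.card * (κ / 2 * a + Real.log (η * κ / 4) - E) ≤ (O b).card *
      ce (O b) gl (fun x => fun j : Fin J => fa x (P j)) :=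
    mul_le_mul hf1.le hce hR0 hOc0.le
  have hlu : Real.log U.card ≤ a := by
    rw [ha]
    exact Real.log_le_log hUc0 (by exact_mod_cast card_le_card hUA)
  have h2 : δ * (U.card * Real.log U.card + J * U.card) ≤ δ * (a + J) * U.card := by
    have h3 : (U.card : ℝ) * Real.log U.card + J * U.card ≤ (a + J) * U.card := by
      have := mul_le_mul_of_nonneg_left hlu hUc0.le
      linarith
    have := mul_le_mul_of_nonneg_left h3 hδ
    linarith
  have h3 : Real.log (1 / ρ) * g b ≤ Real.log (1 / ρ) * (2 / η * Y) * U.card := by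
    have := mul_le_mul_of_nonneg_left hg1 hlρ
    linarith
  have h4 := mul_lt_mul_of_pos_right hnum hUc0
  linarith

end Pool.Agent.T2H12.KM
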