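import Mathlib
import Pool.Agent.T2H12.KM.Defs4

/-!
# Sums when few primes have exponents of large entropy, general decomposition (package SUMB4)
-/

set_option autoImplicit false

namespace Pool.Agent.T2H12.KM

open Finset
open scoped Classical
open Pool.Agent.Y359.PE Pool.Agent.T2H12.KF Pool.Agent.T2H12.KD Pool.Agent.T2H12.KG
open Pool.Agent.T2H12.KH Pool.Agent.T2H12.KJ

/-- the entropy of `γ` given the sum is at most that of the exponents at `P₁` given the sum, and that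
of `γ` given the exponents at `P₁` -/
lemma hzm_le4 (m : ℤ) {P₁ : Finset ℕ} (hP : ∀ p ∈ P₁, p.Prime) (γ : ℤ → ℤ) {U V : Finset ℤ}
    (hU : U.Nonempty) (hV : V.Nonempty) :
    hzm m U V γ ≤ hzm m U V (fL P₁.toList) + ce U (gp P₁) γ := by
  have e1 : hzm m U V γ ≤ ce (U ×ˢ V) (fun s => m * s.1 + s.2)
      (fun s => (fL P₁.toList s.1, γ s.1)) :=
    ce_mono _ _ _ _ fun x _ y _ _ hxy => (Prod.mk.inj hxy).2
  have e2 := ce_chain (U ×ˢ V) (fun s : ℤ × ℤ => m * s.1 + s.2)
    (fun s => fL P₁.toList s.1) (fun s => γ s.1)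
  have e3 : ce (U ×ˢ V) (fun s : ℤ × ℤ => (m * s.1 + s.2, fL P₁.toList s.1))
      (fun s => γ s.1) ≤ ce (U ×ˢ V) (fun s : ℤ × ℤ => gp P₁ s.1) (fun s => γ s.1) := by
    refine ce_anti _ _ _ _ fun x _ y _ hxy => ?_
    have h1 := (Prod.mk.inj hxy).2
    rw [fL_eq_iff] at h1
    exact (gp_eq_iff hP).2 fun p hp => h1 p (Finset.mem_toList.2 hp)
  have e4 : ce (U ×ˢ V) (fun s : ℤ × ℤ => gp P₁ s.1) (fun s => γ s.1) =
      ce U (gp P₁) γ := by
    unfold ce
    rw [h_fst U V hU hV (gp P₁), h_fst U V hU hV (fun x => (gp P₁ x, γ x))]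
  unfold hzm at e1 ⊢
  linarith

/-- **The core with a multiplier.** -/
theorem coreD4 {δ δ₂ : ℝ} (hδ : 0 < δ) (hδ1 : δ ≤ 1) (hδ₂ : 0 < δ₂) :
    ∃ (E C₂ B : ℝ) (K' : ℕ), 0 < E ∧ 0 < C₂ ∧ 0 ≤ B ∧
    ∀ (P₁ : Finset ℕ) (γ G : ℤ → ℤ) (L : List (ℕ × ℝ)) (U V : Finset ℤ), Dec P₁ γ G U →
      (∀ a ∈ L, a.1 ∈ P₁) → U.Nonempty → V.Nonempty → (0 : ℤ) ∉ U →
      Good G L U → C₂ * (Real.log U.card + Real.log V.card) ≤ tot E L →
      ∃ m : ℕ, 1 ≤ m ∧ m ≤ K' ∧
        (1 - δ) * (Real.log U.card + Real.log V.card) - δ₂ * P₁.card - B -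
            ce U (gp P₁) γ ≤
          Real.log ((U ×ˢ V).image fun s => (m : ℤ) * s.1 + s.2).card := by
  set d : ℝ := δ / 6 with hd
  have hd0 : 0 < d := by positivity
  have hd1 : d ≤ 1 := by
    rw [hd]
    linarith
  obtain ⟨E, C₂, hE, hC₂, hdd⟩ := dd_final hd0 hd1
  obtain ⟨K', B, hB, hmult⟩ := exists_mult hd0 hd1 hδ₂
  refine ⟨E, C₂, B, K', hE, hC₂, hB, ?_⟩
  intro P₁ γ G L U V hdec hLQ hU hV h0 hG htot
  have hne : ∀ x ∈ U, x ≠ 0 := fun x hx h => h0 (h ▸ hx)
  obtain ⟨m, hm1, hmK, hmle⟩ := hmult P₁.toList U V P₁.nodup_toList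
    (fun p hp => hdec.prime p (Finset.mem_toList.1 hp)) h0 hU hV
  refine ⟨m, hm1, hmK, ?_⟩
  have hm0 : (m : ℤ) ≠ 0 := by
    have : 0 < m := hm1
    exact_mod_cast this.ne'
  have hinj : Function.Injective fun x : ℤ => (m : ℤ) * x := fun x y hxy =>
    mul_left_cancel₀ hm0 hxy
  have hdiv : ∀ x : ℤ, ((m : ℤ) * x) / m = x := fun x => Int.mul_ediv_cancel_left x hm0
  set U' : Finset ℤ := U.image fun x => (m : ℤ) * x with hU'
  set γ' : ℤ → ℤ := fun y => m * γ (y / m) with hγ'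
  set G' : ℤ → ℤ := fun y => G (y / m) with hG'
  have hγm : ∀ x, γ' ((m : ℤ) * x) = m * γ x := fun x => by
    simp only [hγ', hdiv]
  have hGm : ∀ x, G' ((m : ℤ) * x) = G x := fun x => by
    simp only [hG', hdiv]
  have hUc : U'.card = U.card := card_image_of_injective _ hinj
  have hU'n : U'.Nonempty := hU.image _
  have h1 := hdd γ' G' L U' V hU'n hV (by
      intro y hy
      obtain ⟨x, hx, rfl⟩ := mem_image.1 hy
      rw [hγm, hGm, mul_assoc, ← hdec.eq x hx]) (by
      intro a ha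
      have haQ := hLQ a ha
      refine ⟨hdec.prime _ haQ, ?_, ?_⟩
      · intro y hy y' hy' hyy
        obtain ⟨x, hx, rfl⟩ := mem_image.1 hy
        obtain ⟨x', hx', rfl⟩ := mem_image.1 hy'
        rw [hγm, hγm] at hyy
        have h2 := (hdec.hg h0 haQ).1 x hx x' hx' (mul_left_cancel₀ hm0 hyy)
        rw [fa_mul hm0 (hne x hx), fa_mul hm0 (hne x' hx'), h2]
      · intro y hy y' hy' hyy l
        obtain ⟨x, hx, rfl⟩ := mem_image.1 hy
        obtain ⟨x', hx', rfl⟩ := mem_image.1 hy'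
        rw [hγm, hγm] at hyy
        have hg := mul_left_cancel₀ hm0 hyy
        rw [hGm, hGm]
        have h2 : (m : ℤ) * x - m * x' = (m * γ x) * (G x - G x') := by
          have h3 := hdec.eq x hx
          have h4 := hdec.eq x' hx'
          rw [← hg] at h4
          calc (m : ℤ) * x - m * x' = m * (γ x * G x) - m * (γ x * G x') := by
                rw [← h3, ← h4]
            _ = _ := by ring
        have hgp := (hdec.ne h0 hx).1
        rw [h2, pow_dvd_mul_iff (hdec.prime a.1 haQ) (mul_ne_zero hm0 hgp), fa_mul hm0 hgp,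
          hdec.fa_eq h0 haQ hx, fa_mul hm0 (hne x hx)])
      (good_dilate hm0 hGm L U hne hG) (by rw [hUc]; exact htot)
  have h2 := lo_eq U' V hU'n hV (fun y => γ (y / m)) γ' (by
    intro y hy y' hy'
    obtain ⟨x, hx, rfl⟩ := mem_image.1 hy
    obtain ⟨x', hx', rfl⟩ := mem_image.1 hy'
    rw [hγm, hγm, hdiv, hdiv]
    constructor
    · intro h3
      rw [h3]
    · intro h3
      exact mul_left_cancel₀ hm0 h3)
  have h3 : hz U' V (fun y => γ (y / m)) = hzm (m : ℤ) U V γ := by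
    unfold hz hzm ce
    rw [hU', h_dilate hm0, h_dilate hm0]
    simp only [hdiv]
  have h3' := hzm_le4 (m : ℤ) hdec.prime γ hU hV
  have h4 := log_add_ge U' V hU'n hV
  have h5 : ((U' ×ˢ V).image fun s => s.1 + s.2) =
      (U ×ˢ V).image fun s => (m : ℤ) * s.1 + s.2 := by
    ext z
    simp only [mem_image, mem_product, Prod.exists, hU']
    constructor
    · rintro ⟨a, b, ⟨⟨x, hx, rfl⟩, hb⟩, rfl⟩
      exact ⟨x, b, ⟨hx, hb⟩, rfl⟩
    · rintro ⟨x, b, ⟨hx, hb⟩, rfl⟩
      exact ⟨_, b, ⟨⟨x, hx, rfl⟩, hb⟩, rfl⟩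
  rw [h5, hUc, h2, h3] at h4
  rw [hUc] at h1
  rw [Finset.length_toList] at hmle
  have h6 := h_le_log_card U (fL P₁.toList)
  have h7 : 5 * d * (h U (fL P₁.toList) + Real.log V.card) ≤
      5 * d * (Real.log U.card + Real.log V.card) :=
    mul_le_mul_of_nonneg_left (by linarith) (by positivity)
  have h8 : (1 - δ) * (Real.log U.card + Real.log V.card) =
      (Real.log U.card + Real.log V.card) - 5 * d * (Real.log U.card + Real.log V.card) -
        d * (Real.log U.card + Real.log V.card) := by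
    rw [hd]
    ring
  rw [h8]
  linarith

open SumB in
/-- **Few primes with exponents of large entropy** (small `δ₁`). -/
theorem sumB4_aux {κ δ₁ : ℝ} (hκ : 0 < κ) (hδ₁ : 0 < δ₁) (hδκ : δ₁ ≤ κ / 4) (hδ2 : δ₁ ≤ 1 / 2)
    (M C : ℝ) :
    ∃ (K' : ℕ) (δ a₀ : ℝ), 0 < δ ∧ 0 < a₀ ∧
    ∀ (A : Finset ℤ) (P P₁ : Finset ℕ) (γ G : ℤ → ℤ), A.Nonempty → (0 : ℤ) ∉ A →
      Dec P₁ γ G A → P ⊆ P₁ →
      (∀ U ⊆ A, ce U (gp P₁) γ ≤ δ * Real.log A.card) →
      a₀ ≤ Real.log A.card → (P.card : ℝ) ≤ δ * Real.log A.card →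
      (P₁.card : ℝ) ≤ C * Real.log A.card → κ * Real.log A.card ≤ ce A G (gp P) →
      ∀ V : Finset ℤ, V.Nonempty → Real.log V.card ≤ M * Real.log A.card →
        ∃ m : ℕ, 1 ≤ m ∧ m ≤ K' ∧ (1 - δ₁) * (Real.log A.card + Real.log V.card) ≤
          Real.log ((A ×ˢ V).image fun s => (m : ℤ) * s.1 + s.2).card := by
  have hl2 : 0 < Real.log 2 := Real.log_pos (by norm_num)
  have hC1 : 0 < |C| + 1 := by positivity
  obtain ⟨E, C₂, B₀, K', hE, hC₂, hB₀, hcore⟩ := coreD4 (δ := δ₁ / 4) (δ₂ := δ₁ / (8 * (|C| + 1)))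
    (by positivity) (by linarith) (by positivity)
  obtain ⟨Kη, hKη, hcost⟩ := cost_le (η := δ₁ / 8) (by positivity)
  set K : ℝ := max 1 (8 * (C₂ * (1 + |M|)) / κ) with hK
  have hK1 : 1 ≤ K := le_max_left _ _
  have hlK : 0 ≤ Real.log K := Real.log_nonneg hK1
  have hlE : 0 ≤ Real.log (max E 1) := Real.log_nonneg (le_max_right _ _)
  set B := Real.log K + Real.log (max E 1) with hB
  have hB0 : 0 ≤ B := by positivity
  set δ : ℝ := min (min (δ₁ / (16 * Kη)) (κ / (8 * (B + 1)))) (δ₁ / 8) with hδ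
  have hδ0 : 0 < δ := by positivity
  have hδb : δ * Kη ≤ δ₁ / 16 := by
    have h1 : δ ≤ δ₁ / (16 * Kη) := (min_le_left _ _).trans (min_le_left _ _)
    have h2 := mul_le_mul_of_nonneg_right h1 hKη.le
    have h3 : δ₁ / (16 * Kη) * Kη = δ₁ / 16 := by field_simp
    linarith
  have hδc : δ * B ≤ κ / 8 := by
    have h1 : δ ≤ κ / (8 * (B + 1)) := (min_le_left _ _).trans (min_le_right _ _)
    have h2 := mul_le_mul_of_nonneg_right h1 (by linarith : 0 ≤ B + 1)
    have h3 : κ / (8 * (B + 1)) * (B + 1) = κ / 8 := by field_simp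
    nlinarith
  obtain ⟨a₁, ha₁, hlog⟩ := exists_log_le (ε := δ₁ / 16) (by positivity)
    (Kη - Real.log (κ / 2))
  refine ⟨K', δ, max (max 1 a₁) (max (8 * Real.log 2 / κ) (4 * B₀ / δ₁)), hδ0, by positivity, ?_⟩
  intro A P P₁ γ G hA h0 hdec hPQ hdt ha₀ hP hQc hce V hV hVM
  set a := Real.log A.card with had
  have ha1 : 1 ≤ a := ((le_max_left _ _).trans (le_max_left _ _)).trans ha₀
  have haa₁ : a₁ ≤ a := ((le_max_right _ _).trans (le_max_left _ _)).trans ha₀
  have ha2 : 8 * Real.log 2 / κ ≤ a := ((le_max_left _ _).trans (le_max_right _ _)).trans ha₀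
  have ha3 : 4 * B₀ / δ₁ ≤ a := ((le_max_right _ _).trans (le_max_right _ _)).trans ha₀
  rw [div_le_iff₀ hκ] at ha2
  rw [div_le_iff₀ hδ₁] at ha3
  have hlog1 := hlog a haa₁
  have ha0 : 0 < a := by linarith
  have hc : (0 : ℝ) < A.card := by exact_mod_cast card_pos.2 hA
  have hne : ∀ x ∈ A, x ≠ 0 := fun x hx h => h0 (h ▸ hx)
  -- the elements with a large gap
  have s1 := large_gap A hA G (gp P) ha0 hκ.le hce
  rw [← had] at s1
  set N : ℤ → ℕ := fc A (fun y => (G y, gp P y)) with hN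
  set A₁ := A.filter fun x => κ / 2 * a ≤ Real.log (fc A G x) - Real.log (N x) with hA₁
  have hA₁A : A₁ ⊆ A := filter_subset _ _
  have hA₁c : (0 : ℝ) < A₁.card := lt_of_lt_of_le (by positivity) s1
  have hA₁n : A₁.Nonempty := card_pos.1 (by exact_mod_cast hA₁c)
  obtain ⟨s, hs⟩ := pigeon_log A₁ hA₁n N A.card fun x _ => fc_le
  rw [← had] at hs
  set A₂ := A₁.filter fun x => Nat.log 2 (N x) = s with hA₂
  have hA₂1 : A₂ ⊆ A₁ := filter_subset _ _
  have hA₂A : A₂ ⊆ A := hA₂1.trans hA₁A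
  have hA₂c : (0 : ℝ) < A₂.card := by
    by_contra hcon
    have h1 : (A₂.card : ℝ) = 0 := le_antisymm (not_lt.1 hcon) (Nat.cast_nonneg _)
    rw [h1, mul_zero] at hs
    linarith
  have hA₂n : A₂.Nonempty := card_pos.1 (by exact_mod_cast hA₂c)
  have s2 : Real.log (κ / 2) + a - Real.log (a / Real.log 2 + 1) ≤ Real.log A₂.card := by
    have h1 : κ / 2 * A.card ≤ (a / Real.log 2 + 1) * A₂.card := s1.trans hs
    have h2 := Real.log_le_log (by positivity) h1
    rw [Real.log_mul (by positivity) hc.ne', Real.log_mul (by positivity) hA₂c.ne'] at h2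
    linarith
  -- the regular part
  set Lp := P.toList with hLp
  set r := Lp.length with hr
  have hrc : (r : ℝ) ≤ δ * a := by
    rw [hr, hLp, Finset.length_toList]
    exact hP
  have hmem : ∀ p, p ∈ Lp ↔ p ∈ P := fun p => Finset.mem_toList
  obtain ⟨U, c, hUA₂, hU, hreg, s4⟩ := reg_all (FE G Lp) (FE_mono G Lp) (r + 1) A₂ hA₂n
    (by
      intro x _ y _ hxy
      exact FE_inj hxy) (r + 1) le_rfl
  rw [Nat.sub_self] at s4
  have hUA : U ⊆ A := hUA₂.trans hA₂A
  have hUc : (0 : ℝ) < U.card := by exact_mod_cast card_pos.2 hU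
  set u := Real.log U.card with hu
  have hua : u ≤ a := Real.log_le_log hUc (by exact_mod_cast card_le_card hUA)
  have hregF : ∀ i, i ≤ r → ∀ x ∈ U,
      fc U (FF G Lp i) x = 2 ^ (∑ l ∈ Ico i r, c l) * 2 ^ (c r) := by
    intro i hi x hx
    have h1 := hreg i (by omega) (by omega) x hx
    have h2 : cl U (FE G Lp i) x = cl U (FF G Lp i) x :=
      cl_eq_of_iff (fun y _ z _ => FE_eq_iff hi) hx
    unfold fc at h1 ⊢
    rw [← h2, h1, sum_Ico_succ_top hi, pow_add]
  -- the classes of `U`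
  set T : ℝ := ∑ i ∈ range r, ((c i : ℝ) * Real.log 2) with hT
  have hfib : ∀ x ∈ U, (U.filter fun y => G y = G x).card =
      2 ^ (∑ l ∈ range r, c l) * 2 ^ (c r) := by
    intro x hx
    have h1 := hregF 0 (Nat.zero_le _) x hx
    rw [← Nat.Ico_zero_eq_range, ← h1]
    unfold fc
    congr 1
    ext y
    rw [mem_cl, mem_filter, FF_eq_iff]
    simp
  have hTlog : Real.log ((2 ^ (∑ l ∈ range r, c l) : ℕ) : ℝ) = T := by
    push_cast
    rw [Real.log_pow, hT, ← sum_mul]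
    push_cast
    rfl
  have hT0 : 0 ≤ T := sum_nonneg fun _ _ => by positivity
  have hTa : T + c r * Real.log 2 ≤ a := by
    obtain ⟨x, hx⟩ := hU
    have h1 : T + c r * Real.log 2 =
        Real.log (((U.filter fun y => G y = G x).card : ℕ) : ℝ) := by
      rw [hfib x hx, ← hTlog]
      push_cast
      rw [Real.log_mul (by positivity) (by positivity), Real.log_pow]
      push_cast
      rw [Real.log_pow 2 (c r)]
    rw [h1]
    refine Real.log_le_log ?_ ?_
    · have h9 : (U.filter fun y => G y = G x).Nonempty := ⟨x, mem_filter.2 ⟨hx, rfl⟩⟩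
      exact_mod_cast card_pos.2 h9
    · exact_mod_cast card_le_card ((filter_subset _ _).trans hUA)
  -- the size of `U`
  have s5 : Real.log A₂.card ≤ u + ∑ l ∈ range (r + 1),
      Real.log (2 * ((c l : ℝ) + 1) * (c l + 2)) := by
    have h1 := Real.log_le_log hA₂c s4
    rw [Real.log_mul hUc.ne' (prod_pos fun _ _ => by positivity).ne',
      Real.log_prod (fun _ _ => by positivity), Nat.Ico_zero_eq_range] at h1
    exact h1
  have s6 : ∑ l ∈ range (r + 1), Real.log (2 * ((c l : ℝ) + 1) * (c l + 2)) ≤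
      δ₁ / 8 * (T + c r * Real.log 2) + (r + 1) * Kη := by
    refine (sum_le_sum fun l _ => hcost (c l)).trans (le_of_eq ?_)
    rw [sum_add_distrib, sum_const, card_range, nsmul_eq_mul, ← mul_sum, sum_range_succ]
    push_cast
    rfl
  have s8 : (1 - δ₁ / 4) * a ≤ u := by
    have h1 : (r : ℝ) * Kη ≤ δ₁ / 16 * a := by
      have h2 := mul_le_mul_of_nonneg_right hrc hKη.le
      have h3 := mul_le_mul_of_nonneg_right hδb ha0.le
      linarith
    have h2 : δ₁ / 8 * (T + c r * Real.log 2) ≤ δ₁ / 8 * a :=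
      mul_le_mul_of_nonneg_left hTa (by positivity)
    linarith
  -- the entropy of the exponents
  have s9 : κ / 4 * a ≤ T := by
    have h1 : (U.card : ℝ) = ((U.image G).card : ℝ) *
        (((2 ^ (∑ l ∈ range r, c l) : ℕ) : ℝ) * 2 ^ (c r)) := by
      have h2 : U.card = ∑ g ∈ U.image G, (U.filter fun x => G x = g).card :=
        card_eq_sum_card_image G U
      have h3 : ∑ g ∈ U.image G, (U.filter fun x => G x = g).card =
          ∑ _g ∈ U.image G, 2 ^ (∑ l ∈ range r, c l) * 2 ^ (c r) := by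
        refine sum_congr rfl fun g hg => ?_
        obtain ⟨x, hx, rfl⟩ := mem_image.1 hg
        exact hfib x hx
      rw [h3, sum_const, smul_eq_mul] at h2
      exact_mod_cast h2
    have hIc : (0 : ℝ) < (U.image G).card := by exact_mod_cast card_pos.2 (hU.image _)
    -- the last class
    obtain ⟨x₀, hx₀⟩ := id hU
    have h2 : 2 ^ (c r) ≤ N x₀ := by
      have h3 := hregF r le_rfl x₀ hx₀
      rw [Ico_self, sum_empty, pow_zero, one_mul] at h3
      rw [← h3, hN]
      unfold fc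
      refine card_le_card fun y hy => ?_
      obtain ⟨h4, h5⟩ := mem_cl.1 hy
      rw [FF_eq_iff] at h5
      refine mem_cl.2 ⟨hUA h4, ?_⟩
      have h6 : gp P y = gp P x₀ := (gp_eq_iff fun p hp => hdec.prime p (hPQ hp)).2 fun p hp =>
        h5.2 p (by rw [hr, List.take_length]; exact (hmem p).2 hp)
      rw [Prod.mk.injEq]
      exact ⟨h5.1, h6⟩
    have h3 : N x₀ < 2 ^ (s + 1) := by
      have h4 := (mem_filter.1 (hUA₂ hx₀)).2
      rw [← h4]
      exact Nat.lt_pow_succ_log_self (by norm_num) _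
    have h4 : c r ≤ s := by
      have h5 := lt_of_le_of_lt h2 h3
      have h6 := (Nat.pow_lt_pow_iff_right (by norm_num : 1 < 2)).1 h5
      omega
    have h5 : ∀ x ∈ A₂, Real.exp (κ / 2 * a) * 2 ^ s ≤ fc A G x := by
      intro x hx
      obtain ⟨h6, h7⟩ := mem_filter.1 hx
      obtain ⟨h8, h9⟩ := mem_filter.1 h6
      have hNx : 0 < N x := fc_pos h8
      have h10 : (2 : ℝ) ^ s ≤ N x := by
        rw [← h7]
        exact_mod_cast Nat.pow_log_le_self 2 hNx.ne'
      have h11 : (0 : ℝ) < fc A G x := fc_posR h8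
      have h12 : (0 : ℝ) < N x := by exact_mod_cast hNx
      have h13 : Real.exp (κ / 2 * a) * N x ≤ fc A G x := by
        rw [← Real.exp_log h12, ← Real.exp_add]
        conv_rhs => rw [← Real.exp_log h11]
        exact Real.exp_le_exp.2 (by linarith)
      exact (mul_le_mul_of_nonneg_left h10 (Real.exp_pos _).le).trans h13
    have h6 : ((A₂.image G).card : ℝ) * (Real.exp (κ / 2 * a) * 2 ^ s) ≤ A.card := by
      have h := image_card_le A A₂ G h5
      have hinst : ∀ i₁ i₂ : DecidableEq ℤ, @Finset.image ℤ ℤ i₁ G A₂ =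
          @Finset.image ℤ ℤ i₂ G A₂ := fun i₁ i₂ => by rw [Subsingleton.elim i₁ i₂]
      rw [hinst _ Int.instDecidableEq] at h
      exact h
    have h7 : Real.log (U.image G).card + κ / 2 * a + s * Real.log 2 ≤ a := by
      have h8 : ((U.image G).card : ℝ) ≤ (A₂.image G).card := by
        exact_mod_cast card_le_card (image_subset_image hUA₂)
      have h9 : ((U.image G).card : ℝ) * (Real.exp (κ / 2 * a) * 2 ^ s) ≤ A.card :=
        (mul_le_mul_of_nonneg_right h8 (by positivity)).trans h6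
      have h10 := Real.log_le_log (by positivity) h9
      rw [Real.log_mul hIc.ne' (by positivity), Real.log_mul (Real.exp_pos _).ne' (by positivity),
        Real.log_exp, Real.log_pow] at h10
      linarith
    have h8 : u = Real.log (U.image G).card + (T + c r * Real.log 2) := by
      rw [hu, h1, Real.log_mul hIc.ne' (by positivity), Real.log_mul (by positivity)
        (by positivity), hTlog, Real.log_pow]
    have h9 : (c r : ℝ) * Real.log 2 ≤ s * Real.log 2 :=
      mul_le_mul_of_nonneg_right (by exact_mod_cast h4) hl2.le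
    have h10 : δ₁ / 4 * a ≤ κ / 16 * a := mul_le_mul_of_nonneg_right (by linarith) ha0.le
    have h11 : 0 ≤ κ * a := by positivity
    linarith
  -- the good list
  have hgood : Good G (lc Lp c) U := good_of_reg' (2 ^ (c r)) Lp c U fun i hi x hx =>
    hregF i hi x hx
  have htot : C₂ * (1 + |M|) * a ≤ tot E (lc Lp c) := by
    refine le_trans ?_ (tot_lc hK1 hE Lp c)
    rw [← hr, ← hB, ← hT]
    have h1 : K * (κ / 4 * a) ≤ K * T := mul_le_mul_of_nonneg_left s9 (by linarith)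
    have h2 : (r : ℝ) * (K * B) ≤ K * (κ / 8 * a) := by
      have h3 := mul_le_mul_of_nonneg_right hrc hB0
      have h4 := mul_le_mul_of_nonneg_right hδc ha0.le
      have h5 : (r : ℝ) * B ≤ κ / 8 * a := by linarith
      have h6 := mul_le_mul_of_nonneg_left h5 (by linarith : 0 ≤ K)
      linarith
    have h3 : C₂ * (1 + |M|) * a ≤ K * (κ / 8 * a) := by
      have h4 : 8 * (C₂ * (1 + |M|)) / κ ≤ K := le_max_right _ _
      rw [div_le_iff₀ hκ] at h4
      have h5 := mul_le_mul_of_nonneg_right h4 ha0.le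
      linarith
    have h4 : K * (κ / 4 * a) = K * (κ / 8 * a) + K * (κ / 8 * a) := by ring
    linarith
  have hv0 := log_card_nonneg V
  have hVM' : Real.log V.card ≤ |M| * a :=
    hVM.trans (mul_le_mul_of_nonneg_right (le_abs_self M) ha0.le)
  obtain ⟨m, hm1, hm2, hm3⟩ := hcore P₁ γ G (lc Lp c) U V
    (hdec.mono (Subset.refl _) hUA) (by
      intro b hb
      have h2 : b.1 ∈ (lc Lp c).map Prod.fst := List.mem_map_of_mem hb
      rw [lc_fst] at h2
      exact hPQ ((hmem _).1 h2)) hU hV (fun h => h0 (hUA h)) hgood (by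
      refine le_trans ?_ htot
      rw [mul_assoc]
      refine mul_le_mul_of_nonneg_left ?_ hC₂.le
      linarith)
  refine ⟨m, hm1, hm2, ?_⟩
  have h1 : Real.log ((U ×ˢ V).image fun s => (m : ℤ) * s.1 + s.2).card ≤
      Real.log ((A ×ˢ V).image fun s => (m : ℤ) * s.1 + s.2).card := by
    have h2 : ((U ×ˢ V).image fun s => (m : ℤ) * s.1 + s.2).Nonempty := (hU.product hV).image _
    refine Real.log_le_log (by exact_mod_cast card_pos.2 h2) ?_
    exact_mod_cast card_le_card (image_subset_image (product_subset_product_left hUA))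
  refine le_trans ?_ h1
  refine le_trans ?_ hm3
  rw [← hu]
  have h2 : δ₁ / (8 * (|C| + 1)) * P₁.card ≤ δ₁ / 8 * a := by
    have h3 : (P₁.card : ℝ) ≤ (|C| + 1) * a := by
      refine hQc.trans (mul_le_mul_of_nonneg_right ?_ ha0.le)
      linarith [le_abs_self C]
    have h4 := mul_le_mul_of_nonneg_left h3 (show 0 ≤ δ₁ / (8 * (|C| + 1)) by positivity)
    refine h4.trans (le_of_eq ?_)
    field_simp
  set v := Real.log V.card with hv
  have h3 : (1 - δ₁ / 4) * ((1 - δ₁ / 4) * a) ≤ (1 - δ₁ / 4) * u :=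
    mul_le_mul_of_nonneg_left s8 (by linarith)
  have h4 : 0 ≤ δ₁ * v := by positivity
  have h5 : 0 ≤ δ₁ * a := by positivity
  have h6 : 0 ≤ δ₁ * δ₁ * a := by positivity
  have h7 : ce U (gp P₁) γ ≤ δ₁ / 8 * a :=
    (hdt U hUA).trans (mul_le_mul_of_nonneg_right (min_le_right _ _) ha0.le)
  linarith

/-- **Few primes with exponents of large entropy.** -/
theorem sumB4 {κ δ₁ : ℝ} (hκ : 0 < κ) (hδ₁ : 0 < δ₁) (M C : ℝ) :
    ∃ (K' : ℕ) (δ a₀ : ℝ), 0 < δ ∧ 0 < a₀ ∧
    ∀ (A : Finset ℤ) (P P₁ : Finset ℕ) (γ G : ℤ → ℤ), A.Nonempty → (0 : ℤ) ∉ A →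
      Dec P₁ γ G A → P ⊆ P₁ →
      (∀ U ⊆ A, ce U (gp P₁) γ ≤ δ * Real.log A.card) →
      a₀ ≤ Real.log A.card → (P.card : ℝ) ≤ δ * Real.log A.card →
      (P₁.card : ℝ) ≤ C * Real.log A.card → κ * Real.log A.card ≤ ce A G (gp P) →
      ∀ V : Finset ℤ, V.Nonempty → Real.log V.card ≤ M * Real.log A.card →
        ∃ m : ℕ, 1 ≤ m ∧ m ≤ K' ∧ (1 - δ₁) * (Real.log A.card + Real.log V.card) ≤
          Real.log ((A ×ˢ V).image fun s => (m : ℤ) * s.1 + s.2).card := by
  obtain ⟨K', δ, a₀, hδ, ha₀, hmain⟩ := sumB4_aux (δ₁ := min δ₁ (min (κ / 4) (1 / 2))) hκ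
    (by positivity) ((min_le_right _ _).trans (min_le_left _ _))
    ((min_le_right _ _).trans (min_le_right _ _)) M C
  refine ⟨K', δ, a₀, hδ, ha₀, ?_⟩
  intro A P P₁ γ G hA h0 hdec hPQ hdt ha hP hQc hce V hV hVM
  obtain ⟨m, hm1, hm2, hm3⟩ := hmain A P P₁ γ G hA h0 hdec hPQ hdt ha hP hQc hce V hV hVM
  refine ⟨m, hm1, hm2, le_trans ?_ hm3⟩
  refine mul_le_mul_of_nonneg_right ?_ ?_
  · linarith [min_le_left δ₁ (min (κ / 4) (1 / 2))]
  · exact add_nonneg (log_card_nonneg A) (log_card_nonneg V)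

end Pool.Agent.T2H12.KM
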