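import Mathlib
import Pool.Agent.T2H12.KM.SumA4
import Pool.Agent.T2H12.KM.SumB4

/-!
# The sum side for a general decomposition (package FIN4)
-/

set_option autoImplicit false

namespace Pool.Agent.T2H12.KM

open Finset
open scoped Classical
open Pool.Agent.Y359.PE Pool.Agent.T2H12.KF Pool.Agent.T2H12.KD Pool.Agent.T2H12.KG
open Pool.Agent.T2H12.KH Pool.Agent.T2H12.KJ

/-- **All primes.** -/
theorem sumC4 {κ δ₁ : ℝ} (hκ : 0 < κ) (hδ₁ : 0 < δ₁) (M C : ℝ) :
    ∃ (K' : ℕ) (δ a₀ : ℝ), 0 < δ ∧ 0 < a₀ ∧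
    ∀ (A : Finset ℤ) (P : Finset ℕ) (γ G : ℤ → ℤ), A.Nonempty → (0 : ℤ) ∉ A → Dec P γ G A →
      (∀ U ⊆ A, ce U (gp P) γ ≤ δ * Real.log A.card) →
      a₀ ≤ Real.log A.card → (P.card : ℝ) ≤ C * Real.log A.card →
      h A G ≤ (1 - κ) * Real.log A.card →
      ∀ V : Finset ℤ, V.Nonempty → Real.log V.card ≤ M * Real.log A.card →
        ∃ m : ℕ, 1 ≤ m ∧ m ≤ K' ∧ (1 - δ₁) * (Real.log A.card + Real.log V.card) ≤
          Real.log ((A ×ˢ V).image fun s => (m : ℤ) * s.1 + s.2).card := by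
  obtain ⟨K, K1, δa, a1, hδa, ha1, H1⟩ := sumA4 (half_pos hκ) hδ₁ M C
  obtain ⟨K2, δb, a2, hδb, ha2, H2⟩ := sumB4 (half_pos hκ) hδ₁ M C
  refine ⟨max K1 K2, min δa δb, max (max a1 a2) (K / δb), lt_min hδa hδb,
    lt_max_of_lt_left (lt_max_of_lt_left ha1), ?_⟩
  intro A P γ G hA h0 hdec hdt ha hPc hent V hV hVc
  have b1 : a1 ≤ Real.log A.card := ((le_max_left _ _).trans (le_max_left _ _)).trans ha
  have b2 : a2 ≤ Real.log A.card := ((le_max_right _ _).trans (le_max_left _ _)).trans ha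
  have b3 : (K : ℝ) / δb ≤ Real.log A.card := (le_max_right _ _).trans ha
  have b4 : (K : ℝ) ≤ δb * Real.log A.card := by
    rw [div_le_iff₀ hδb] at b3
    linarith
  have hL0 : 0 ≤ Real.log A.card := log_card_nonneg A
  have hda : ∀ U ⊆ A, ce U (gp P) γ ≤ δa * Real.log A.card := fun U hU =>
    (hdt U hU).trans (mul_le_mul_of_nonneg_right (min_le_left _ _) hL0)
  have hdb : ∀ U ⊆ A, ce U (gp P) γ ≤ δb * Real.log A.card := fun U hU =>
    (hdt U hU).trans (mul_le_mul_of_nonneg_right (min_le_right _ _) hL0)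
  have e2 := gl_entropy (K := K) hdec h0
  set L := Real.log A.card with hL
  by_cases hc : κ / 2 * L ≤ ce A G (gp (P.filter (· < K)))
  · have c1 : (P.filter (· < K)).card ≤ K := by
      have : P.filter (· < K) ⊆ range K := fun q hq => mem_range.2 (mem_filter.1 hq).2
      simpa using card_le_card this
    have c2 : ((P.filter (· < K)).card : ℝ) ≤ δb * L := le_trans (by exact_mod_cast c1) b4
    obtain ⟨m, hm1, hm2, hm3⟩ := H2 A (P.filter (· < K)) P γ G hA h0 hdec (filter_subset _ _) hdb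
      b2 c2 hPc hc V hV hVc
    exact ⟨m, hm1, hm2.trans (le_max_right _ _), hm3⟩
  · have c3 : h A (gl K P G) ≤ (1 - κ / 2) * L := by
      push Not at hc
      rw [e2]
      nlinarith
    obtain ⟨m, hm1, hm2, hm3⟩ := H1 A P γ G hA h0 hdec hda b1 hPc c3 V hV hVc
    exact ⟨m, hm1, hm2.trans (le_max_left _ _), hm3⟩

/-- **The sum side.** -/
theorem sum_fin4 (k : ℕ) {κ ε : ℝ} (hκ : 0 < κ) (hε : 0 < ε) (hε1 : ε ≤ 1) (C : ℝ) :
    ∃ (K : ℕ) (δ c : ℝ), 0 < δ ∧ 0 < c ∧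
    ∀ (A : Finset ℤ) (P : Finset ℕ) (γ G : ℤ → ℤ), A.Nonempty → (0 : ℤ) ∉ A → Dec P γ G A →
      (∀ U ⊆ A, ce U (gp P) γ ≤ δ * Real.log A.card) → (P.card : ℝ) ≤ C * Real.log A.card →
      h A G ≤ (1 - κ) * Real.log A.card →
      ∀ B : Finset ℤ, B.Nonempty → ∃ l : ℕ → ℕ, (∀ i, 1 ≤ l i ∧ l i ≤ K) ∧
        c * ((A.card : ℝ) ^ k * B.card) ^ (1 - ε) ≤ (dilateSum k l A B).card := by
  have hk0 : (0 : ℝ) ≤ k := Nat.cast_nonneg k
  set δ₁ : ℝ := ε / (4 * (k + 1)) with hδ₁d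
  have hδ₁ : 0 < δ₁ := by positivity
  have hδk : δ₁ * (k + 1) = ε / 4 := by
    rw [hδ₁d]
    field_simp
  have hδ₁1 : δ₁ ≤ 1 := by nlinarith
  set M : ℝ := k + k / ε + 1 with hM
  obtain ⟨K', δ, a₀, hδ, ha₀, hside⟩ := sumC4 hκ hδ₁ M C
  refine ⟨max K' 1, δ, Real.exp (-(k * a₀)), hδ, Real.exp_pos _, ?_⟩
  intro A P γ G hA h0 hdec hdt hQc hH B hB
  have hAc : (1 : ℝ) ≤ A.card := by exact_mod_cast card_pos.2 hA
  have hA0 : (0 : ℝ) < A.card := by linarith
  set a := Real.log A.card with had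
  have ha : 0 ≤ a := Real.log_nonneg hAc
  have hBc : (1 : ℝ) ≤ B.card := by exact_mod_cast card_pos.2 hB
  have hB0 : (0 : ℝ) < B.card := by linarith
  set b := Real.log B.card with hbd
  have hb : 0 ≤ b := Real.log_nonneg hBc
  have hX : (0 : ℝ) < (A.card : ℝ) ^ k * B.card := by positivity
  have hlX : Real.log ((A.card : ℝ) ^ k * B.card) = k * a + b := by
    rw [Real.log_mul (by positivity) hB0.ne', Real.log_pow]
  have hXp : (0 : ℝ) < ((A.card : ℝ) ^ k * B.card) ^ (1 - ε) := Real.rpow_pos_of_pos hX _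
  have htB : ∀ l : ℕ → ℕ, (B.card : ℝ) ≤ (dilateSum k l A B).card :=
    fun l => by exact_mod_cast dilateSum_card_ge hA k l
  have htp : ∀ l : ℕ → ℕ, (0 : ℝ) < (dilateSum k l A B).card := fun l => by
    linarith [htB l]
  have hb1 : ∀ l : ℕ → ℕ, b ≤ Real.log (dilateSum k l A B).card :=
    fun l => Real.log_le_log hB0 (htB l)
  have hlog : ∀ l : ℕ → ℕ, -(k * a₀) + (1 - ε) * (k * a + b) ≤
      Real.log (dilateSum k l A B).card →
      Real.exp (-(k * a₀)) * ((A.card : ℝ) ^ k * B.card) ^ (1 - ε) ≤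
        (dilateSum k l A B).card := by
    intro l hl
    rw [← Real.log_le_log_iff (mul_pos (Real.exp_pos _) hXp) (htp l),
      Real.log_mul (Real.exp_pos _).ne' hXp.ne', Real.log_exp, Real.log_rpow hX, hlX]
    exact hl
  have hka0 : 0 ≤ k * a₀ := by positivity
  rcases lt_or_ge a a₀ with haa | haa
  · -- small sets
    refine ⟨fun _ => 1, fun _ => ⟨le_rfl, le_max_right _ _⟩, hlog _ ?_⟩
    have h1 : k * a ≤ k * a₀ := mul_le_mul_of_nonneg_left haa.le hk0
    have h2 : 0 ≤ ε * (k * a + b) := by positivity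
    linarith [hb1 fun _ => 1]
  rcases lt_or_ge (k / ε * a) b with hbb | hbb
  · -- large `B`
    refine ⟨fun _ => 1, fun _ => ⟨le_rfl, le_max_right _ _⟩, hlog _ ?_⟩
    have h1 : k * a ≤ ε * b := by
      have h2 := mul_le_mul_of_nonneg_left hbb.le hε.le
      have h3 : ε * (k / ε * a) = k * a := by field_simp
      linarith
    have h2 : (1 - ε) * (k * a + b) ≤ (1 - ε) * (ε * b + b) :=
      mul_le_mul_of_nonneg_left (by linarith) (by linarith)
    have h3 : 0 ≤ ε ^ 2 * b := by positivity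
    have h4 : (1 - ε) * (ε * b + b) = b - ε ^ 2 * b := by ring
    linarith [hb1 fun _ => 1]
  · -- the main case
    have hstep : ∀ V : Finset ℤ, V.Nonempty ∧ Real.log V.card ≤ M * a →
        ∃ m : ℕ, 1 ≤ m ∧ m ≤ K' ∧ (1 - δ₁) * (a + Real.log V.card) ≤
          Real.log ((A ×ˢ V).image fun s => (m : ℤ) * s.1 + s.2).card :=
      fun V hV => hside A P γ G hA h0 hdec hdt haa hQc hH V hV.1 hV.2
    have hstep2 : ∀ V : Finset ℤ, ∃ m : ℕ, 1 ≤ m ∧ m ≤ max K' 1 ∧
        (V.Nonempty ∧ Real.log V.card ≤ M * a → (1 - δ₁) * (a + Real.log V.card) ≤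
          Real.log ((A ×ˢ V).image fun s => (m : ℤ) * s.1 + s.2).card) := by
      intro V
      by_cases hV : V.Nonempty ∧ Real.log V.card ≤ M * a
      · obtain ⟨m, hm1, hm2, hm3⟩ := hstep V hV
        exact ⟨m, hm1, hm2.trans (le_max_left _ _), fun _ => hm3⟩
      · exact ⟨1, le_rfl, le_max_right _ _, fun h => absurd h hV⟩
    choose g hg1 hg2 hg3 using hstep2
    refine ⟨fun i => g (vf g A B i), fun i => ⟨hg1 _, hg2 _⟩, hlog _ ?_⟩
    have h1 := iterate_vf (g := g) (A := A) (B := B) (η := δ₁) (k := k) hδ₁.le hδ₁1 (by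
      intro j hj
      refine hg3 _ ⟨vf_nonempty g hA hB j, ?_⟩
      have hVc : (0 : ℝ) < (vf g A B j).card := by
        exact_mod_cast card_pos.2 (vf_nonempty g hA hB j)
      have h2 : ((vf g A B j).card : ℝ) ≤ (A.card : ℝ) ^ j * B.card := by
        exact_mod_cast vf_card_le g A B j
      have h3 := Real.log_le_log hVc h2
      rw [Real.log_mul (by positivity) (by positivity), Real.log_pow] at h3
      have hjm : (j : ℝ) ≤ k := by exact_mod_cast hj.le
      have h4 : (j : ℝ) * a ≤ k * a := mul_le_mul_of_nonneg_right hjm ha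
      have h5 : M * a = k * a + k / ε * a + a := by
        rw [hM]
        ring
      rw [h5]
      linarith)
    have h2 : Real.log (vf g A B k).card ≤
        Real.log (dilateSum k (fun i => g (vf g A B i)) A B).card :=
      log_card_mono (vf_nonempty g hA hB k) (vf_sub g A B k)
    have h3 := one_add_mul_le_pow (a := -δ₁) (by linarith) k
    have h4 : (1 : ℝ) + -δ₁ = 1 - δ₁ := by ring
    rw [h4] at h3
    have h5 : 1 - ε / 4 ≤ (1 - δ₁) ^ k := by nlinarith
    have h7 : (1 - ε / 4) * (k * a + b) ≤ (1 - δ₁) ^ k * (k * a + b) :=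
      mul_le_mul_of_nonneg_right h5 (by positivity)
    have h8 : (1 - ε) * (k * a + b) ≤ (1 - ε / 4) * (k * a + b) :=
      mul_le_mul_of_nonneg_right (by linarith) (by positivity)
    linarith

end Pool.Agent.T2H12.KM
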